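import Mathlib

/-!
# The rational Urysohn space and cyclic automorphisms: definitions
-/

set_option autoImplicit false

namespace Pool.Agent.Q307.Ury

/-- `X` is (isometric to) the rational Urysohn space, the Fraïssé limit of the class of finite metric
spaces with rational distances: it is countable, has rational distances, contains a copy of every
finite metric space with rational distances, and every isometry between finite subsets extends to an
isometry of `X` onto itself. -/
structure IsRationalUrysohn (X : Type) [MetricSpace X] : Prop where
  countable : Countable X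
  rational : ∀ x y : X, ∃ q : ℚ, dist x y = q
  universal : ∀ (Y : Type) [MetricSpace Y] [Finite Y], (∀ x y : Y, ∃ q : ℚ, dist x y = q) →
    ∃ f : Y → X, Isometry f
  homogeneous : ∀ (s : Set X) (f : s → X), s.Finite → Isometry f →
    ∃ φ : X ≃ᵢ X, ∀ x : s, φ x.1 = f x

/-- The powers of `σ` act regularly: for all `x`, `y` there is exactly one `n` with `σ ^ n x = y`. -/
def IsCyclic {X : Type} [MetricSpace X] (σ : X ≃ᵢ X) : Prop :=
  ∀ x y : X, ∃! n : ℤ, (σ ^ n) x = y

/-- The closure of the group generated by `τ` in the group of surjective isometries, for the topology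
of pointwise convergence. -/
def closurePowers {U : Type} [MetricSpace U] (τ : U ≃ᵢ U) : Set (U ≃ᵢ U) :=
  {g | ∀ (F : Finset U) (ε : ℝ), 0 < ε → ∃ n : ℤ, ∀ x ∈ F, dist ((τ ^ n) x) (g x) < ε}

end Pool.Agent.Q307.Ury
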