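import Pool.Agent.Q307.Ury.Defs

/-!
# One point extensions in the rational Urysohn space
-/

set_option autoImplicit false

namespace Pool.Agent.Q307.Ury

open Set

/-- The distance of the one point extension. -/
def oDist {A : Type} [MetricSpace A] (g : A → ℝ) : Option A → Option A → ℝ
  | none, none => 0
  | none, some p => g p
  | some p, none => g p
  | some p, some q => dist p q

/-- The one point extension of a metric space. -/
noncomputable def oMetric {A : Type} [MetricSpace A] (g : A → ℝ) (hpos : ∀ p, 0 < g p)
    (h1 : ∀ p q, |g p - g q| ≤ dist p q) (h2 : ∀ p q, dist p q ≤ g p + g q) :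
    MetricSpace (Option A) where
  dist := oDist g
  dist_self x := by
    cases x with
    | none => rfl
    | some p => exact dist_self p
  dist_comm x y := by
    cases x with
    | none => cases y <;> rfl
    | some p =>
      cases y with
      | none => rfl
      | some q => exact dist_comm p q
  dist_triangle x y z := by
    cases x with
    | none =>
      cases y with
      | none =>
        cases z with
        | none => show (0 : ℝ) ≤ 0 + 0; simp
        | some r => show g r ≤ 0 + g r; simp
      | some q =>
        cases z with
        | none => show (0 : ℝ) ≤ g q + g q; linarith [hpos q]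
        | some r =>
          show g r ≤ g q + dist q r
          have := (abs_le.mp (h1 q r)).1
          linarith
    | some p =>
      cases y with
      | none =>
        cases z with
        | none => show g p ≤ g p + 0; simp
        | some r => exact h2 p r
      | some q =>
        cases z with
        | none =>
          show g p ≤ dist p q + g q
          have := (abs_le.mp (h1 p q)).2
          linarith
        | some r => exact dist_triangle p q r
  eq_of_dist_eq_zero {x y} h := by
    cases x with
    | none =>
      cases y with
      | none => rfl
      | some q =>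
        have h' : g q = 0 := h
        exact absurd h' (hpos q).ne'
    | some p =>
      cases y with
      | none =>
        have h' : g p = 0 := h
        exact absurd h' (hpos p).ne'
      | some q =>
        have h' : dist p q = 0 := h
        exact congrArg some (dist_eq_zero.mp h')

/-- The one point extension property, for families of points. -/
theorem ext_point {X : Type} [MetricSpace X] (hX : IsRationalUrysohn X) {k : ℕ} (a : Fin k → X)
    (g : Fin k → ℝ) (hg : ∀ i, ∃ q : ℚ, g i = q) (hpos : ∀ i, 0 < g i)
    (h1 : ∀ i j, |g i - g j| ≤ dist (a i) (a j)) (h2 : ∀ i j, dist (a i) (a j) ≤ g i + g j) :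
    ∃ y, ∀ i, dist y (a i) = g i := by
  classical
  choose idx hidx using fun p : range a => p.2
  have hgi : ∀ i, g (idx ⟨a i, mem_range_self i⟩) = g i := by
    intro i
    have h3 := h1 (idx ⟨a i, mem_range_self i⟩) i
    rw [hidx, dist_self] at h3
    have h4 := abs_nonpos_iff.mp h3
    linarith
  letI : MetricSpace (Option (range a)) := oMetric (fun p => g (idx p)) (fun p => hpos _)
    (fun p q => by
      have := h1 (idx p) (idx q)
      rw [hidx, hidx] at this
      exact this)
    (fun p q => by
      have := h2 (idx p) (idx q)
      rw [hidx, hidx] at this
      exact this)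
  obtain ⟨f, hf⟩ := hX.universal (Option (range a)) (by
    intro x y
    cases x with
    | none =>
      cases y with
      | none => exact ⟨0, by show (0 : ℝ) = ((0 : ℚ) : ℝ); simp⟩
      | some q => exact hg _
    | some p =>
      cases y with
      | none => exact hg _
      | some q => exact hX.rational p.1 q.1)
  have hdist : ∀ p q : range a, dist (f (some p)) (f (some q)) = dist p.1 q.1 := fun p q =>
    hf.dist_eq (some p) (some q)
  have hinj : Function.Injective fun p : range a => f (some p) := by
    intro p q hpq
    have h3 := hdist p q
    rw [show f (some p) = f (some q) from hpq, dist_self] at h3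
    exact Subtype.ext (dist_eq_zero.mp h3.symm)
  let s : Set X := range fun p : range a => f (some p)
  choose inv hinv using fun x : s => x.2
  obtain ⟨φ, hφ⟩ := hX.homogeneous s (fun x => (inv x).1) (finite_range _) (by
    refine Isometry.of_dist_eq fun x y => ?_
    rw [← hdist (inv x) (inv y)]
    have e1 : f (some (inv x)) = x.1 := hinv x
    have e2 : f (some (inv y)) = y.1 := hinv y
    rw [e1, e2]
    rfl)
  refine ⟨φ (f none), fun i => ?_⟩
  have h5 : φ (f (some ⟨a i, mem_range_self i⟩)) = a i := by
    have h6 := hφ ⟨f (some ⟨a i, mem_range_self i⟩), ⟨⟨a i, mem_range_self i⟩, rfl⟩⟩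
    rw [h6]
    have h7 := hinj (hinv ⟨f (some ⟨a i, mem_range_self i⟩), ⟨⟨a i, mem_range_self i⟩, rfl⟩⟩)
    exact congrArg Subtype.val h7
  calc dist (φ (f none)) (a i) = dist (φ (f none)) (φ (f (some ⟨a i, mem_range_self i⟩))) := by
        rw [h5]
    _ = dist (f none) (f (some ⟨a i, mem_range_self i⟩)) := φ.dist_eq _ _
    _ = dist (none : Option (range a)) (some ⟨a i, mem_range_self i⟩) := hf.dist_eq _ _
    _ = g (idx ⟨a i, mem_range_self i⟩) := rfl
    _ = g i := hgi i

end Pool.Agent.Q307.Ury
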