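import Pool.Agent.Q307.Ury.Ext

/-!
# Elements of order two in the closure of a cyclic automorphism
-/

set_option autoImplicit false

namespace Pool.Agent.Q307.Ury

open Set Filter Topology

/-- The norm on `ℤ`. -/
noncomputable def nm {X : Type} [MetricSpace X] (σ : X ≃ᵢ X) (o : X) (n : ℤ) : ℝ := dist ((σ ^ n) o) o

section

variable {X : Type} [MetricSpace X] (hX : IsRationalUrysohn X) (σ : X ≃ᵢ X) (hσ : IsCyclic σ) (o : X)

theorem zpow_apply_add {Y : Type} [MetricSpace Y] (ρ : Y ≃ᵢ Y) (n m : ℤ) (x : Y) :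
    (ρ ^ n) ((ρ ^ m) x) = (ρ ^ (n + m)) x := by
  rw [zpow_add]
  rfl

theorem dist_zpow (n m : ℤ) : dist ((σ ^ n) o) ((σ ^ m) o) = nm σ o (n - m) := by
  unfold nm
  rw [← (σ ^ m).dist_eq ((σ ^ (n - m)) o) o, zpow_apply_add, add_sub_cancel]

theorem nm_zero : nm σ o 0 = 0 := by
  unfold nm
  rw [zpow_zero]
  exact dist_self _

theorem nm_neg (n : ℤ) : nm σ o (-n) = nm σ o n := by
  have h1 := dist_zpow σ o n 0
  have h2 := dist_zpow σ o 0 n
  rw [dist_comm, h1] at h2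
  rw [show -n = 0 - n by ring, ← h2, sub_zero]

theorem nm_nonneg (n : ℤ) : 0 ≤ nm σ o n := dist_nonneg

theorem nm_add_le (n m : ℤ) : nm σ o (n + m) ≤ nm σ o n + nm σ o m := by
  have h1 := dist_triangle ((σ ^ (n + m)) o) ((σ ^ m) o) o
  rw [dist_zpow] at h1
  simpa [nm] using h1

include hX in
theorem nm_rational (n : ℤ) : ∃ q : ℚ, nm σ o n = q := hX.rational _ _

include hX hσ in
theorem ext_int {k : ℕ} (a : Fin k → ℤ) (g : Fin k → ℝ) (hg : ∀ i, ∃ q : ℚ, g i = q)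
    (hpos : ∀ i, 0 < g i) (h1 : ∀ i j, |g i - g j| ≤ nm σ o (a i - a j))
    (h2 : ∀ i j, nm σ o (a i - a j) ≤ g i + g j) : ∃ m : ℤ, ∀ i, nm σ o (m - a i) = g i := by
  obtain ⟨y, hy⟩ := ext_point hX (fun i => (σ ^ a i) o) g hg hpos
    (fun i j => by rw [dist_zpow]; exact h1 i j) (fun i j => by rw [dist_zpow]; exact h2 i j)
  obtain ⟨m, hm, _⟩ := hσ o y
  refine ⟨m, fun i => ?_⟩
  rw [← hy i, ← hm, dist_zpow]

theorem nm_sub_comm (a b : ℤ) : nm σ o (a - b) = nm σ o (b - a) := by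
  rw [← nm_neg, neg_sub]

include hX hσ in
/-- The extension property for four points. -/
theorem ext_four (a b c d : ℤ) (r s t u : ℝ) (hr : ∃ q : ℚ, r = q) (hs : ∃ q : ℚ, s = q)
    (ht : ∃ q : ℚ, t = q) (hu : ∃ q : ℚ, u = q) (r0 : 0 < r) (s0 : 0 < s) (t0 : 0 < t) (u0 : 0 < u)
    (ab : |r - s| ≤ nm σ o (a - b) ∧ nm σ o (a - b) ≤ r + s)
    (ac : |r - t| ≤ nm σ o (a - c) ∧ nm σ o (a - c) ≤ r + t)
    (ad : |r - u| ≤ nm σ o (a - d) ∧ nm σ o (a - d) ≤ r + u)
    (bc : |s - t| ≤ nm σ o (b - c) ∧ nm σ o (b - c) ≤ s + t)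
    (bd : |s - u| ≤ nm σ o (b - d) ∧ nm σ o (b - d) ≤ s + u)
    (cd : |t - u| ≤ nm σ o (c - d) ∧ nm σ o (c - d) ≤ t + u) :
    ∃ m : ℤ, nm σ o (m - a) = r ∧ nm σ o (m - b) = s ∧ nm σ o (m - c) = t ∧ nm σ o (m - d) = u := by
  have self1 : ∀ (v : ℝ) (e : ℤ), |v - v| ≤ nm σ o (e - e) := by
    intro v e
    rw [sub_self, sub_self, abs_zero, nm_zero]
  have self2 : ∀ (v : ℝ) (e : ℤ), 0 < v → nm σ o (e - e) ≤ v + v := by
    intro v e hv
    rw [sub_self, nm_zero]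
    linarith
  have sym1 : ∀ (v w : ℝ) (e f : ℤ), |v - w| ≤ nm σ o (e - f) → |w - v| ≤ nm σ o (f - e) := by
    intro v w e f h
    rwa [abs_sub_comm, nm_sub_comm]
  have sym2 : ∀ (v w : ℝ) (e f : ℤ), nm σ o (e - f) ≤ v + w → nm σ o (f - e) ≤ w + v := by
    intro v w e f h
    rwa [add_comm, nm_sub_comm]
  obtain ⟨m, hm⟩ := ext_int hX σ hσ o ![a, b, c, d] ![r, s, t, u]
    (by
      intro i
      fin_cases i
      · exact hr
      · exact hs
      · exact ht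
      · exact hu)
    (by
      intro i
      fin_cases i
      · exact r0
      · exact s0
      · exact t0
      · exact u0)
    (by
      intro i j
      fin_cases i <;> fin_cases j
      · exact self1 r a
      · exact ab.1
      · exact ac.1
      · exact ad.1
      · exact sym1 _ _ _ _ ab.1
      · exact self1 s b
      · exact bc.1
      · exact bd.1
      · exact sym1 _ _ _ _ ac.1
      · exact sym1 _ _ _ _ bc.1
      · exact self1 t c
      · exact cd.1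
      · exact sym1 _ _ _ _ ad.1
      · exact sym1 _ _ _ _ bd.1
      · exact sym1 _ _ _ _ cd.1
      · exact self1 u d)
    (by
      intro i j
      fin_cases i <;> fin_cases j
      · exact self2 r a r0
      · exact ab.2
      · exact ac.2
      · exact ad.2
      · exact sym2 _ _ _ _ ab.2
      · exact self2 s b s0
      · exact bc.2
      · exact bd.2
      · exact sym2 _ _ _ _ ac.2
      · exact sym2 _ _ _ _ bc.2
      · exact self2 t c t0
      · exact cd.2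
      · exact sym2 _ _ _ _ ad.2
      · exact sym2 _ _ _ _ bd.2
      · exact sym2 _ _ _ _ cd.2
      · exact self2 u d u0)
  exact ⟨m, hm 0, hm 1, hm 2, hm 3⟩

include hX hσ in
/-- Elements of large norm whose doubles have a small norm. -/
theorem exists_large (ε : ℚ) (hε : 0 < ε) (k : ℕ) :
    ∃ x : ℤ, nm σ o x = k * ε / 2 ∧ nm σ o (2 * x) ≤ ε := by
  have hε' : (0 : ℝ) < ε := by exact_mod_cast hε
  induction k with
  | zero =>
    refine ⟨0, ?_, ?_⟩
    · rw [nm_zero]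
      simp
    · rw [mul_zero, nm_zero]
      exact hε'.le
  | succ k ih =>
    obtain ⟨x, hx1, hx2⟩ := ih
    have e1 : nm σ o (x - -x) = nm σ o (2 * x) := by congr 1; ring
    have e3 : nm σ o (-x) = k * ε / 2 := by rw [nm_neg, hx1]
    have hk : (0 : ℝ) ≤ k := Nat.cast_nonneg k
    have hke : (0 : ℝ) ≤ k * ε / 2 := by positivity
    have h0 := nm_nonneg σ o (2 * x)
    have h3 : |(ε : ℝ) / 2 - (k + 1) * ε / 2| ≤ k * ε / 2 := by
      rw [abs_le]
      constructor <;> linarith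
    have hr1 : ∃ q : ℚ, (ε : ℝ) / 2 = q := ⟨ε / 2, by push_cast; rfl⟩
    have hr2 : ∃ q : ℚ, ((k : ℝ) + 1) * ε / 2 = q := ⟨(k + 1) * ε / 2, by push_cast; rfl⟩
    obtain ⟨m, m0, m1, m2, _⟩ := ext_four hX σ hσ o x (-x) 0 0 ((ε : ℝ) / 2) (ε / 2)
      ((k + 1) * ε / 2) ((k + 1) * ε / 2) hr1 hr1 hr2 hr2 (by positivity) (by positivity)
      (by positivity) (by positivity)
      ⟨by rw [e1, sub_self, abs_zero]; exact h0, by rw [e1]; linarith⟩
      ⟨by rw [sub_zero, hx1]; exact h3, by rw [sub_zero, hx1]; linarith⟩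
      ⟨by rw [sub_zero, hx1]; exact h3, by rw [sub_zero, hx1]; linarith⟩
      ⟨by rw [sub_zero, e3]; exact h3, by rw [sub_zero, e3]; linarith⟩
      ⟨by rw [sub_zero, e3]; exact h3, by rw [sub_zero, e3]; linarith⟩
      ⟨by rw [sub_zero, nm_zero, sub_self, abs_zero], by rw [sub_zero, nm_zero]; positivity⟩
    refine ⟨m, ?_, ?_⟩
    · rw [sub_zero] at m2
      rw [m2]
      push_cast
      ring
    · rw [show 2 * m = (m - x) + (m - -x) by ring]
      refine (nm_add_le σ o _ _).trans ?_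
      rw [m0, m1]
      linarith

include hX hσ in
theorem approach_step (x y : ℤ) (ε : ℚ) (hε : 0 < ε) (hx : nm σ o (2 * x) ≤ ε)
    (hy : nm σ o (2 * y) ≤ ε / 2)
    (hD : 3 * (ε : ℝ) / 4 < max (nm σ o (x - y)) (nm σ o (x + y))) :
    ∃ z : ℤ, nm σ o (2 * z) ≤ ε / 2 ∧ max (nm σ o (x - z)) (nm σ o (x + z)) =
      max (nm σ o (x - y)) (nm σ o (x + y)) - ε / 4 := by
  have hε' : (0 : ℝ) < ε := by exact_mod_cast hε
  set D := max (nm σ o (x - y)) (nm σ o (x + y)) with hDdef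
  have hDr : ∃ q : ℚ, D = q := by
    obtain ⟨q1, h1⟩ := nm_rational hX σ o (x - y)
    obtain ⟨q2, h2⟩ := nm_rational hX σ o (x + y)
    exact ⟨max q1 q2, by rw [hDdef, h1, h2, Rat.cast_max]⟩
  obtain ⟨q, hq⟩ := hDr
  have d1 : nm σ o (x - y) ≤ D := le_max_left _ _
  have d2 : nm σ o (x + y) ≤ D := le_max_right _ _
  have t1 : nm σ o (x + y) ≤ nm σ o (x - y) + nm σ o (2 * y) := by
    have := nm_add_le σ o (x - y) (2 * y)
    rwa [show x - y + 2 * y = x + y by ring] at this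
  have t2 : nm σ o (x - y) ≤ nm σ o (x + y) + nm σ o (2 * y) := by
    have := nm_add_le σ o (x + y) (-(2 * y))
    rwa [show x + y + -(2 * y) = x - y by ring, nm_neg] at this
  have d3 : D ≤ nm σ o (x - y) + ε / 2 := max_le (by linarith) (by linarith)
  have d4 : D ≤ nm σ o (x + y) + ε / 2 := max_le (by linarith) (by linarith)
  have e01 : nm σ o (y - -y) = nm σ o (2 * y) := by congr 1; ring
  have e02 : nm σ o (y - x) = nm σ o (x - y) := by rw [← nm_neg, neg_sub]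
  have e03 : nm σ o (y - -x) = nm σ o (x + y) := by congr 1; ring
  have e12 : nm σ o (-y - x) = nm σ o (x + y) := by rw [show -y - x = -(x + y) by ring, nm_neg]
  have e13 : nm σ o (-y - -x) = nm σ o (x - y) := by congr 1; ring
  have e23 : nm σ o (x - -x) = nm σ o (2 * x) := by congr 1; ring
  have h0x := nm_nonneg σ o (2 * x)
  have h0y := nm_nonneg σ o (2 * y)
  have a1 : |(ε : ℝ) / 4 - (D - ε / 4)| = D - ε / 2 := by
    rw [abs_of_nonpos (by linarith)]
    ring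
  have hr1 : ∃ q : ℚ, (ε : ℝ) / 4 = q := ⟨ε / 4, by push_cast; rfl⟩
  have hr2 : ∃ q : ℚ, D - (ε : ℝ) / 4 = q := ⟨q - ε / 4, by push_cast; rw [← hq]⟩
  obtain ⟨m, m0, m1, m2, m3⟩ := ext_four hX σ hσ o y (-y) x (-x) ((ε : ℝ) / 4) (ε / 4)
    (D - ε / 4) (D - ε / 4) hr1 hr1 hr2 hr2 (by positivity) (by positivity)
    (by linarith) (by linarith)
    ⟨by rw [e01, sub_self, abs_zero]; exact h0y, by rw [e01]; linarith⟩
    ⟨by rw [e02, a1]; linarith, by rw [e02]; linarith⟩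
    ⟨by rw [e03, a1]; linarith, by rw [e03]; linarith⟩
    ⟨by rw [e12, a1]; linarith, by rw [e12]; linarith⟩
    ⟨by rw [e13, a1]; linarith, by rw [e13]; linarith⟩
    ⟨by rw [e23, sub_self, abs_zero]; exact h0x, by rw [e23]; linarith⟩
  refine ⟨m, ?_, ?_⟩
  · rw [show 2 * m = (m - y) + (m - -y) by ring]
    refine (nm_add_le σ o _ _).trans ?_
    rw [m0, m1]
    linarith
  · rw [show x - m = -(m - x) by ring, nm_neg, m2, show x + m = m - -x by ring, m3, max_self]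

include hX hσ in
theorem approach_iter (x : ℤ) (ε : ℚ) (hε : 0 < ε) (hx : nm σ o (2 * x) ≤ ε) (k : ℕ) :
    ∀ y : ℤ, nm σ o (2 * y) ≤ ε / 2 →
      max (nm σ o (x - y)) (nm σ o (x + y)) ≤ 3 * ε / 4 + k * (ε / 4) →
      ∃ z : ℤ, nm σ o (2 * z) ≤ ε / 2 ∧ nm σ o (x - z) ≤ 3 * ε / 4 := by
  induction k with
  | zero =>
    intro y hy hD
    refine ⟨y, hy, (le_max_left _ (nm σ o (x + y))).trans ?_⟩
    simpa using hD
  | succ k ih =>
    intro y hy hD
    by_cases h : 3 * (ε : ℝ) / 4 < max (nm σ o (x - y)) (nm σ o (x + y))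
    · obtain ⟨z, hz1, hz2⟩ := approach_step hX σ hσ o x y ε hε hx hy h
      refine ih z hz1 ?_
      rw [hz2]
      push_cast at hD
      linarith
    · exact ⟨y, hy, (le_max_left _ (nm σ o (x + y))).trans (not_lt.mp h)⟩

include hX hσ in
/-- Near every element with small double there is one with a much smaller double. -/
theorem approach (x : ℤ) (ε : ℚ) (hε : 0 < ε) (hx : nm σ o (2 * x) ≤ ε) :
    ∃ z : ℤ, nm σ o (2 * z) ≤ ε / 2 ∧ nm σ o (x - z) ≤ 3 * ε / 4 := by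
  have hε' : (0 : ℝ) < ε := by exact_mod_cast hε
  obtain ⟨k, hk⟩ := exists_nat_gt (nm σ o x / (ε / 4))
  rw [div_lt_iff₀ (by positivity)] at hk
  refine approach_iter hX σ hσ o x ε hε hx k 0 ?_ ?_
  · rw [mul_zero, nm_zero]
    positivity
  · rw [sub_zero, add_zero, max_self]
    linarith

include hX hσ in
theorem exists_seq : ∃ x : ℕ → ℤ, nm σ o (x 0) = 1 ∧
    (∀ k, nm σ o (2 * x k) ≤ 1 / 4 / 2 ^ k) ∧
    ∀ k, nm σ o (x k - x (k + 1)) ≤ 3 / 8 / 2 / 2 ^ k := by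
  have h : ∀ (x : ℤ) (ε : ℚ), ∃ z : ℤ, 0 < ε → nm σ o (2 * x) ≤ ε →
      nm σ o (2 * z) ≤ ε / 2 ∧ nm σ o (x - z) ≤ 3 * ε / 4 := by
    intro x ε
    by_cases h1 : 0 < ε ∧ nm σ o (2 * x) ≤ ε
    · obtain ⟨z, hz⟩ := approach hX σ hσ o x ε h1.1 h1.2
      exact ⟨z, fun _ _ => hz⟩
    · exact ⟨0, fun h2 h3 => absurd ⟨h2, h3⟩ h1⟩
  choose F hF using h
  obtain ⟨x0, hx0, hx0'⟩ := exists_large hX σ hσ o (1 / 4) (by norm_num) 8
  let x : ℕ → ℤ := fun k => Nat.rec x0 (fun j y => F y (1 / 4 / 2 ^ j)) k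
  have hx : ∀ k, x (k + 1) = F (x k) (1 / 4 / 2 ^ k) := fun k => rfl
  have h2 : ∀ k, nm σ o (2 * x k) ≤ 1 / 4 / 2 ^ k := by
    intro k
    induction k with
    | zero =>
      show nm σ o (2 * x0) ≤ _
      refine hx0'.trans ?_
      norm_num
    | succ k ih =>
      rw [hx]
      have h3 := (hF (x k) (1 / 4 / 2 ^ k) (by positivity) (by push_cast; exact ih)).1
      refine h3.trans (le_of_eq ?_)
      push_cast
      rw [pow_succ]
      ring
  refine ⟨x, ?_, h2, fun k => ?_⟩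
  · show nm σ o x0 = 1
    rw [hx0]
    norm_num
  · rw [hx]
    have h3 := (hF (x k) (1 / 4 / 2 ^ k) (by positivity) (by push_cast; exact h2 k)).2
    refine h3.trans (le_of_eq ?_)
    push_cast
    ring

end

section

variable {U : Type} [MetricSpace U] [CompleteSpace U] (Q : Set U) (hd : Dense Q)
  (hQ : IsRationalUrysohn Q) (σ : Q ≃ᵢ Q) (hσ : IsCyclic σ) (τ : U ≃ᵢ U)
  (hτ : ∀ x : Q, τ x = σ x)

include hτ in
theorem zpow_coe (n : ℤ) (x : Q) : (τ ^ n) x = ((σ ^ n) x : U) := by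
  have hnat : ∀ (k : ℕ) (x : Q), (τ ^ k) x = ((σ ^ k) x : U) := by
    intro k
    induction k with
    | zero => intro x; rfl
    | succ k ih =>
      intro x
      rw [pow_succ, pow_succ]
      show (τ ^ k) (τ x) = ((σ ^ k) (σ x) : U)
      rw [hτ, ih]
  cases n with
  | ofNat k =>
    rw [Int.ofNat_eq_natCast, zpow_natCast, zpow_natCast]
    exact hnat k x
  | negSucc k =>
    rw [zpow_negSucc, zpow_negSucc]
    have h1 := hnat (k + 1) ((σ ^ (k + 1))⁻¹ x)
    have h2 : (σ ^ (k + 1)) ((σ ^ (k + 1))⁻¹ x) = x := by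
      show ((σ ^ (k + 1)) * (σ ^ (k + 1))⁻¹) x = x
      rw [mul_inv_cancel]
      rfl
    rw [h2] at h1
    rw [← h1]
    show ((τ ^ (k + 1))⁻¹ * (τ ^ (k + 1))) _ = _
    rw [inv_mul_cancel]
    rfl

include hd hσ hτ in
theorem dist_zpow_all (o : Q) (n m : ℤ) (p : U) :
    dist ((τ ^ n) p) ((τ ^ m) p) = nm σ o (n - m) := by
  have hc : Continuous fun p => dist ((τ ^ n) p) ((τ ^ m) p) :=
    (τ ^ n).continuous.dist (τ ^ m).continuous
  have h1 : EqOn (fun p => dist ((τ ^ n) p) ((τ ^ m) p)) (fun _ => nm σ o (n - m)) Q := by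
    intro p hp
    obtain ⟨k, hk, _⟩ := hσ o ⟨p, hp⟩
    show dist ((τ ^ n) p) ((τ ^ m) p) = _
    have e1 : (τ ^ n) p = ((σ ^ n) ⟨p, hp⟩ : U) := zpow_coe Q σ τ hτ n ⟨p, hp⟩
    have e2 : (τ ^ m) p = ((σ ^ m) ⟨p, hp⟩ : U) := zpow_coe Q σ τ hτ m ⟨p, hp⟩
    rw [e1, e2, ← hk, zpow_apply_add, zpow_apply_add, ← Subtype.dist_eq, dist_zpow]
    congr 1
    ring
  exact congrFun (hc.ext_on hd continuous_const h1) p

include hd hQ hσ hτ in
/-- The closure of the powers contains an element of order two. -/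
theorem main : ∃ g ∈ closurePowers τ, g ≠ 1 ∧ g * g = 1 := by
  obtain ⟨f, _⟩ := hQ.universal Unit (fun x y => ⟨0, by simp [Subsingleton.elim x y]⟩)
  set o : Q := f () with ho
  obtain ⟨x, hx0, hx2, hxd⟩ := exists_seq hQ σ hσ o
  have hd1 : ∀ p k, dist ((τ ^ x k) p) ((τ ^ x (k + 1)) p) ≤ 3 / 8 / 2 / 2 ^ k := by
    intro p k
    rw [dist_zpow_all Q hd σ hσ τ hτ o]
    exact hxd k
  have hlim : ∀ p, ∃ q, Tendsto (fun k => (τ ^ x k) p) atTop (𝓝 q) := fun p =>
    cauchySeq_tendsto_of_complete (cauchySeq_of_le_geometric_two (hd1 p))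
  choose g hg using hlim
  have hclose : ∀ p k, dist ((τ ^ x k) p) (g p) ≤ 3 / 8 / 2 ^ k := fun p k =>
    dist_le_of_le_geometric_two_of_tendsto (hd1 p) (hg p) k
  have hzero : Tendsto (fun k : ℕ => (3 : ℝ) / 8 / 2 ^ k) atTop (𝓝 0) := by
    have h1 : Tendsto (fun k : ℕ => (3 : ℝ) / 8 * (1 / 2) ^ k) atTop (𝓝 (3 / 8 * 0)) :=
      (tendsto_pow_atTop_nhds_zero_of_lt_one (by norm_num) (by norm_num)).const_mul _
    rw [mul_zero] at h1
    refine h1.congr fun k => ?_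
    rw [one_div, inv_pow]
    rfl
  have hzero' : Tendsto (fun k : ℕ => (1 : ℝ) / 4 / 2 ^ k) atTop (𝓝 0) := by
    have h1 : Tendsto (fun k : ℕ => (1 : ℝ) / 4 * (1 / 2) ^ k) atTop (𝓝 (1 / 4 * 0)) :=
      (tendsto_pow_atTop_nhds_zero_of_lt_one (by norm_num) (by norm_num)).const_mul _
    rw [mul_zero] at h1
    refine h1.congr fun k => ?_
    rw [one_div ((2 : ℝ)), inv_pow]
    rfl
  have hiso : ∀ p q, dist (g p) (g q) = dist p q := by
    intro p q
    have h1 : Tendsto (fun k => dist ((τ ^ x k) p) ((τ ^ x k) q)) atTop (𝓝 (dist (g p) (g q))) :=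
      (hg p).dist (hg q)
    refine tendsto_nhds_unique h1 ?_
    simp only [IsometryEquiv.dist_eq]
    exact tendsto_const_nhds
  have hinv : ∀ p, g (g p) = p := by
    intro p
    have hle : ∀ k, dist (g (g p)) p ≤ 3 / 8 / 2 ^ k + (3 / 8 / 2 ^ k + 1 / 4 / 2 ^ k) := by
      intro k
      refine (dist_triangle (g (g p)) ((τ ^ x k) (g p)) p).trans (add_le_add ?_ ?_)
      · rw [dist_comm]
        exact hclose _ k
      · refine (dist_triangle ((τ ^ x k) (g p)) ((τ ^ x k) ((τ ^ x k) p)) p).trans (add_le_add ?_ ?_)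
        · rw [(τ ^ x k).dist_eq, dist_comm]
          exact hclose _ k
        · rw [zpow_apply_add]
          have h1 := dist_zpow_all Q hd σ hσ τ hτ o (x k + x k) 0 p
          rw [zpow_zero] at h1
          have h2 : dist ((τ ^ (x k + x k)) p) p = nm σ o (x k + x k - 0) := h1
          rw [h2, show x k + x k - 0 = 2 * x k by ring]
          exact hx2 k
    have h0 : Tendsto (fun k : ℕ => (3 : ℝ) / 8 / 2 ^ k + (3 / 8 / 2 ^ k + 1 / 4 / 2 ^ k)) atTop
        (𝓝 (0 + (0 + 0))) := hzero.add (hzero.add hzero')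
    rw [add_zero, add_zero] at h0
    have h1 := ge_of_tendsto' h0 hle
    exact dist_le_zero.mp h1
  let G : U ≃ᵢ U := ⟨⟨g, g, hinv, hinv⟩, Isometry.of_dist_eq hiso⟩
  refine ⟨G, ?_, ?_, ?_⟩
  · intro F ε hε
    obtain ⟨k, hk⟩ := ((tendsto_order.mp hzero).2 ε hε).exists
    exact ⟨x k, fun p _ => (hclose p k).trans_lt hk⟩
  · intro hG
    have h1 : g o.1 = o.1 := by
      have := congrArg (fun e : U ≃ᵢ U => e o.1) hG
      exact this
    have h2 := hclose o.1 0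
    rw [h1] at h2
    have h3 := dist_zpow_all Q hd σ hσ τ hτ o (x 0) 0 o.1
    rw [zpow_zero, sub_zero, hx0] at h3
    have h4 : dist ((τ ^ x 0) o.1) o.1 = 1 := h3
    rw [h4] at h2
    norm_num at h2
  · ext p
    exact hinv p

end

end Pool.Agent.Q307.Ury
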